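import Pool.Agent.H66.L.S8.W564.SC.Defs

/-!
Project SC, part FLEX.
-/

open Filter Set Metric

universe w

namespace Pool.Agent.W816.SC

open Pool.Agent.W564.SC

section
variable {Y : Type w} [MetricSpace Y] {h : Y ≃ₜ Y}

/-- periodic points are dense -/
theorem dense_per (hs : PerShadow h) (hc : ChainMix h) (y : Y) (ε : ℝ) (hε : 0 < ε) :
    ∃ (q : Y) (b : ℕ), 1 ≤ b ∧ h^[b] q = q ∧ dist q y < ε := by
  obtain ⟨δ, hδ, H⟩ := hs ε hε
  obtain ⟨L, hL⟩ := hc δ hδ
  obtain ⟨w, hw0, hw1, hw2⟩ := hL (L + 1) (Nat.le_succ L) y y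
  obtain ⟨q, hq, hq2⟩ := H (L + 1) w (by omega) (hw1.trans hw0.symm) hw2
  refine ⟨q, L + 1, by omega, hq, ?_⟩
  have := hq2 0 (by omega)
  rwa [hw0] at this

theorem iter_mod {q : Y} {b : ℕ} (hq : h^[b] q = q) (i : ℕ) : h^[i] q = h^[i % b] q :=
  (Function.IsPeriodicPt.iterate_mod_apply (show Function.IsPeriodicPt h b q from hq) i).symm

/-- the orbit of a periodic point is finite -/
theorem orbit_finite {q : Y} {b : ℕ} (hb : 1 ≤ b) (hq : h^[b] q = q) :
    (Set.range fun i : ℕ => h^[i] q).Finite := by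
  refine ((Set.finite_lt_nat b).image fun i : ℕ => h^[i] q).subset ?_
  rintro _ ⟨i, rfl⟩
  exact ⟨i % b, Nat.mod_lt _ (by omega), (iter_mod hq i).symm⟩

/-- there is a periodic point whose orbit does not contain `p` -/
theorem exists_other [Nontrivial Y] (hs : PerShadow h) (hc : ChainMix h) (p : Y) :
    ∃ (q : Y) (b : ℕ), 1 ≤ b ∧ h^[b] q = q ∧ ∀ i : ℕ, h^[i] q ≠ p := by
  by_contra hcon
  push Not at hcon
  -- `p` is periodic
  have hper : ∃ a : ℕ, 1 ≤ a ∧ h^[a] p = p := by
    obtain ⟨q, b, hb, hq, -⟩ := dense_per hs hc p 1 one_pos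
    obtain ⟨i, hi⟩ := hcon q b hb hq
    refine ⟨b, hb, ?_⟩
    rw [← hi, ← Function.iterate_add_apply, add_comm, Function.iterate_add_apply, hq]
  obtain ⟨a, ha, hpa⟩ := hper
  -- every periodic point is in the orbit of `p`
  have horb : ∀ (q : Y) (b : ℕ), 1 ≤ b → h^[b] q = q → q ∈ Set.range fun i : ℕ => h^[i] p := by
    intro q b hb hq
    obtain ⟨j, hj⟩ := hcon q b hb hq
    refine ⟨b * j - j, ?_⟩
    change h^[b * j - j] p = q
    have h1 : j ≤ b * j := Nat.le_mul_of_pos_left j (by omega)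
    rw [← hj, ← Function.iterate_add_apply, Nat.sub_add_cancel h1, Function.iterate_mul]
    exact Function.iterate_fixed hq j
  have hfin := orbit_finite ha hpa
  -- so the orbit of `p` is everything
  have htop : ∀ y : Y, y ∈ Set.range fun i : ℕ => h^[i] p := by
    intro y
    have hcl : IsClosed (Set.range fun i : ℕ => h^[i] p) := hfin.isClosed
    rw [← hcl.closure_eq, Metric.mem_closure_iff]
    intro ε hε
    obtain ⟨q, b, hb, hq, hd⟩ := dense_per hs hc y ε hε
    exact ⟨q, horb q b hb hq, by rw [dist_comm]; exact hd⟩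
  have hfin' : Finite Y := by
    rw [← Set.finite_univ_iff]
    exact hfin.subset fun y _ => htop y
  have hnt : (Set.univ : Set Y).Nontrivial := Set.nontrivial_univ
  have hsep : 0 < (Set.univ : Set Y).infsep := Set.infsep_pos_iff_nontrivial_of_finite.2 hnt
  obtain ⟨L, hL⟩ := hc _ hsep
  have hstep : ∀ m ≥ L, h^[m] p = p := by
    intro m hm
    obtain ⟨w, hw0, hw1, hw2⟩ := hL m hm p p
    have h1 : ∀ i ≤ m, w i = h^[i] p := by
      intro i
      induction i with
      | zero => intro _; exact hw0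
      | succ i ih =>
        intro hi
        have h2 := hw2 i (by omega)
        rw [Function.iterate_succ_apply', ← ih (by omega)]
        by_contra hne
        have h3 := Set.infsep_le_dist_of_mem (Set.mem_univ (h (w i)))
          (Set.mem_univ (w (i + 1))) (fun h => hne h.symm)
        linarith
    rw [← h1 m le_rfl, hw1]
  have h1 := hstep L le_rfl
  have h2 := hstep (L + 1) (Nat.le_succ L)
  rw [Function.iterate_succ_apply', h1] at h2
  obtain ⟨y, hy⟩ := exists_ne p
  obtain ⟨i, hi⟩ := htop y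
  apply hy
  rw [← hi]
  exact Function.iterate_fixed h2 i

end

theorem flex : S_FLEX.{w} := by
  intro Y _ _ _ h hs hc p η hη
  obtain ⟨q, b, hb, hq, hqp⟩ := exists_other hs hc p
  -- distance of `p` from the orbit of `q`
  obtain ⟨c, hc0, hcd⟩ : ∃ c : ℝ, 0 < c ∧ ∀ i : ℕ, c ≤ dist (h^[i] q) p := by
    obtain ⟨i0, hi0, hmin⟩ := Finset.exists_min_image (Finset.range b)
      (fun i => dist (h^[i] q) p) ⟨0, Finset.mem_range.2 (by omega)⟩
    refine ⟨dist (h^[i0] q) p, dist_pos.2 (hqp i0), fun i => ?_⟩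
    rw [iter_mod hq i]
    exact hmin _ (Finset.mem_range.2 (Nat.mod_lt _ (by omega)))
  obtain ⟨δ, hδ, H⟩ := hs (min η (c / 4)) (lt_min hη (by positivity))
  obtain ⟨L, hL⟩ := hc δ hδ
  obtain ⟨R, hLR, hR1⟩ : ∃ R : ℕ, L ≤ R ∧ 1 ≤ R := ⟨L + 1, Nat.le_succ L, by omega⟩
  refine ⟨c / 2, R, by positivity, fun m hm => ?_⟩
  obtain ⟨w1, hw10, hw11, hw12⟩ := hL R hLR p q
  obtain ⟨w2, hw20, hw21, hw22⟩ := hL R hLR (h^[m - 2 * R] q) p
  obtain ⟨w, hw⟩ : ∃ w : ℕ → Y, w = fun i =>
    if i < R then w1 i else if i ≤ m - R then h^[i - R] q else w2 (i - (m - R)) := ⟨_, rfl⟩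
  have hwa : ∀ i, i ≤ R → w i = w1 i := by
    intro i hi
    rw [hw]
    by_cases h1 : i < R
    · simp only [h1, if_true]
    · have h2 : i = R := by omega
      have h3 : i ≤ m - R := by omega
      simp only [h1, if_false, h3, if_true]
      rw [h2, Nat.sub_self, hw11]
      rfl
  have hwb : ∀ i, R ≤ i → i ≤ m - R → w i = h^[i - R] q := by
    intro i hi hi'
    rw [hw]
    have h1 : ¬ i < R := by omega
    simp only [h1, if_false, hi', if_true]
  have hwc : ∀ i, m - R ≤ i → w i = w2 (i - (m - R)) := by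
    intro i hi
    rw [hw]
    have h1 : ¬ i < R := by omega
    by_cases h2 : i ≤ m - R
    · simp only [h1, if_false, h2, if_true]
      have h3 : i = m - R := by omega
      rw [h3, Nat.sub_self, hw20, show m - R - R = m - 2 * R by omega]
    · simp only [h1, if_false, h2]
  obtain ⟨p', hp', hp''⟩ := H m w (by omega)
    (by rw [hwc m (by omega), hwa 0 (by omega), hw10, show m - (m - R) = R by omega, hw21])
    (by
      intro i hi
      by_cases h1 : i + 1 ≤ R
      · rw [hwa i (by omega), hwa (i + 1) h1]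
        exact hw12 i (by omega)
      · by_cases h2 : i + 1 ≤ m - R
        · rw [hwb i (by omega) (by omega), hwb (i + 1) (by omega) h2,
            show i + 1 - R = (i - R) + 1 by omega, Function.iterate_succ_apply', dist_self]
          exact hδ
        · rw [hwc i (by omega), hwc (i + 1) (by omega),
            show i + 1 - (m - R) = (i - (m - R)) + 1 by omega]
          exact hw22 _ (by omega))
  have h0 := hp'' 0 (by omega)
  rw [hwa 0 (by omega), hw10] at h0
  have h0' : dist p' p < min η (c / 4) := h0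
  refine ⟨p', h0'.trans_le (min_le_left _ _), hp', fun i hi hi' => ?_⟩
  have h1 := hp'' i (by omega)
  rw [hwb i hi (by omega)] at h1
  have h2 := hcd (i - R)
  have h3 := min_le_right η (c / 4)
  have h4 : dist (h^[i - R] q) p ≤ dist (h^[i - R] q) (h^[i] p') + dist (h^[i] p') p' + dist p' p :=
    dist_triangle4 _ _ _ _
  rw [dist_comm (h^[i - R] q) (h^[i] p')] at h4
  linarith

end Pool.Agent.W816.SC
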